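import Mathlib
import Pool.Agent.Helper889.QC.Fin

set_option autoImplicit false

namespace Pool.Agent.Results.MP_c5bc55_gt.CriticalExponent

open UpperHalfPlane
open scoped MatrixGroups ContDiff

/-- `PSL(2,ℝ)`, as the group of the maps `z ↦ (az+b)/(cz+d)`, `ad-bc=1`, of the upper
half-plane `ℍ` (image of `SL(2,ℝ)` in the permutations of `ℍ`). -/
noncomputable def PSL2R : Subgroup (Equiv.Perm ℍ) := (MulAction.toPermHom SL(2, ℝ) ℍ).range

/-- `Γ` is a Fuchsian group: a subgroup of `PSL(2,ℝ)` which is discrete (its preimage in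
`SL(2,ℝ)` is discrete). -/
def IsFuchsian (Γ : Subgroup (Equiv.Perm ℍ)) : Prop :=
  Γ ≤ PSL2R ∧ DiscreteTopology (Γ.comap (MulAction.toPermHom SL(2, ℝ) ℍ))

/-- `Γ` is of the first kind: every point of the boundary `ℝ ∪ {∞}` of `ℍ` is a limit of points
of the orbit `Γ i`. -/
def IsFirstKind (Γ : Subgroup (Equiv.Perm ℍ)) : Prop :=
  (∀ x : ℝ, ∀ ε > 0, ∃ γ ∈ Γ, ‖((γ I : ℍ) : ℂ) - x‖ < ε) ∧ ∀ r : ℝ, ∃ γ ∈ Γ, r < ‖((γ I : ℍ) : ℂ)‖

/-- The critical exponent: infimum of the `s > 0` with `∑ exp(-s d(i, γ i)) < ∞`, where `d` is the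
hyperbolic distance of `ℍ`. -/
noncomputable def critExp (Γ : Subgroup (Equiv.Perm ℍ)) : ℝ :=
  sInf {s : ℝ | 0 < s ∧ Summable fun γ : Γ => Real.exp (-s * dist I ((γ : Equiv.Perm ℍ) I))}

/-- The bijection `w` of `ℍ` read as a map from (the upper half of) `ℂ` to `ℂ`. -/
noncomputable def coord (w : Equiv.Perm ℍ) (u : ℂ) : ℂ := (w (ofComplex u) : ℍ)

/-- The `∂`-derivative (times two) of a map `f : ℂ → ℂ`: `f_x - i f_y`. -/
noncomputable def dz (f : ℂ → ℂ) (u : ℂ) : ℂ := fderiv ℝ f u 1 - Complex.I * fderiv ℝ f u Complex.I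

/-- The `∂̄`-derivative (times two) of a map `f : ℂ → ℂ`: `f_x + i f_y`. -/
noncomputable def dzbar (f : ℂ → ℂ) (u : ℂ) : ℂ := fderiv ℝ f u 1 + Complex.I * fderiv ℝ f u Complex.I

/-- `w` is a smooth quasiconformal homeomorphism of `ℍ`: `w` and `w⁻¹` are `C^∞` and there is
`k < 1` with `|∂̄ w| ≤ k |∂ w|` everywhere. -/
def IsSmoothQC (w : Equiv.Perm ℍ) : Prop :=
  (∀ z : ℍ, ContDiffAt ℝ ∞ (coord w) z) ∧ (∀ z : ℍ, ContDiffAt ℝ ∞ (coord w⁻¹) z) ∧
    ∃ k < 1, ∀ z : ℍ, ‖dzbar (coord w) z‖ ≤ k * ‖dz (coord w) z‖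

/-- The conjugated group `w Γ w⁻¹`. -/
def conjGroup (w : Equiv.Perm ℍ) (Γ : Subgroup (Equiv.Perm ℍ)) : Subgroup (Equiv.Perm ℍ) :=
  Γ.map (MulAut.conj w).toMonoidHom

/-- `w` represents a point of `T_qc(Γ)`: it is a (even smooth) quasiconformal homeomorphism of `ℍ`
with `w Γ w⁻¹ ⊂ PSL(2,ℝ)`. -/
def InTqc (Γ : Subgroup (Equiv.Perm ℍ)) (w : Equiv.Perm ℍ) : Prop :=
  IsSmoothQC w ∧ conjGroup w Γ ≤ PSL2R

open Pool.Agent.Helper889.QC in
/-- There is an infinitely generated (and torsion-free) Fuchsian group of the first kind with two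
quasiconformal deformations of different critical exponents. -/
theorem result : ∃ Γ : Subgroup (Equiv.Perm ℍ),
    IsFuchsian Γ ∧ ¬ Γ.FG ∧ IsFirstKind Γ ∧ (∀ γ ∈ Γ, ∀ n : ℕ, 0 < n → γ ^ n = 1 → γ = 1) ∧
    ∃ w₁ w₂ : Equiv.Perm ℍ, InTqc Γ w₁ ∧ InTqc Γ w₂ ∧
      critExp (conjGroup w₁ Γ) ≠ critExp (conjGroup w₂ Γ) := by
  -- the universal constant
  set g0 : SL(2, ℝ) := mat0 1 one_pos with hg0
  set g1 : SL(2, ℝ) := matC 1 (1/4) (by norm_num) with hg1
  set g2 : SL(2, ℝ) := matC 2 (1/4) (by norm_num) with hg2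
  set M : ℝ := max (dist I ((tp g0 * tp g1) I)) (dist I ((tp g0 * tp g2) I)) + 1 with hM
  have hM0 : 0 < M := by
    have := dist_nonneg (x := I) (y := (tp g0 * tp g1) I)
    have h2 := le_max_left (dist I ((tp g0 * tp g1) I)) (dist I ((tp g0 * tp g2) I))
    rw [hM]; linarith
  have hlog : 0 < Real.log 2 := Real.log_pos (by norm_num)
  set s₁ : ℝ := Real.log 2 / M / 2 with hs
  have hs₁ : 0 < s₁ := by positivity
  obtain ⟨C, c, hc, x0, x1, r0, r1, ⟨θ, B, v, L⟩, ⟨θ', B', v', L'⟩⟩ := exists_all hs₁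
  have hR : ∀ z, ∃ m, Red C 1 one_pos m z := red_all C 1 one_pos L
  have hR' : ∀ z, ∃ m, Red C c hc m z := red_all C c hc L'
  have hlam : c = c / 1 := (div_one c).symm
  have hP : Prof (prof c) c := prof_Prof hc
  have hP' := hP.inv
  have hlam' : c⁻¹ = 1 / c := by rw [one_div]
  set w : Equiv.Perm ℍ := wP C 1 one_pos c hc hP hR hR' with hw
  have hwE : ∀ j z, w (C.h 1 one_pos j z) = C.h c hc j (w z) := fun j z =>
    ww_equiv C 1 one_pos c hc hP hlam hR j z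
  have hmap := map_E C 1 one_pos c hc w hwE
  have hone : conjGroup 1 (C.E 1 one_pos) = C.E 1 one_pos := by
    unfold conjGroup
    exact map_E C 1 one_pos 1 one_pos 1 (fun j z => rfl)
  -- critical exponent of the first group
  have hsub : ∀ (c : ℝ) (hc : 0 < c) (s : ℝ), (Summable fun γ : C.G c hc => Real.exp (-s * dist I ((γ : Equiv.Perm ℍ) I))) →
      Summable fun γ : C.E c hc => Real.exp (-s * dist I ((γ : Equiv.Perm ℍ) I)) := by
    intro c hc s h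
    exact h.comp_injective (i := fun γ : C.E c hc => (⟨γ.1, E_le C c hc γ.2⟩ : C.G c hc))
      (fun a b hab => Subtype.ext (congrArg (fun t : C.G c hc => (t : Equiv.Perm ℍ)) hab))
  have hm0 : C.h 1 one_pos 0 = tp g0 := rfl
  have hm1 : C.h 1 one_pos 1 = tp g1 := by
    show tp (matC (C.x 0) (C.ρ 0) (C.pos 0)) = _
    congr 1
    rw [hg1]
    apply Matrix.SpecialLinearGroup.ext
    intro i j
    simp only [matC, x0, r0]
  have hm2 : C.h 1 one_pos 2 = tp g2 := by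
    show tp (matC (C.x 1) (C.ρ 1) (C.pos 1)) = _
    congr 1
    rw [hg2]
    apply Matrix.SpecialLinearGroup.ext
    intro i j
    simp only [matC, x1, r1]
  have hlow : Real.log 2 / M ≤ critExp (C.E 1 one_pos) := by
    refine le_csInf ⟨2, two_pos, hsub 1 one_pos 2 (summable_G C 1 one_pos L)⟩ ?_
    rintro s ⟨h1, h2⟩
    refine lower C 1 one_pos hM0 ?_ ?_ h1 h2
    · rw [hm0, hm1, hM]
      linarith [le_max_left (dist I ((tp g0 * tp g1) I)) (dist I ((tp g0 * tp g2) I))]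
    · rw [hm0, hm2, hM]
      linarith [le_max_right (dist I ((tp g0 * tp g1) I)) (dist I ((tp g0 * tp g2) I))]
  have hupp : critExp (C.E c hc) ≤ s₁ :=
    csInf_le ⟨0, fun s hs => hs.1.le⟩ ⟨hs₁, hsub c hc s₁ (summable_G C c hc L')⟩
  refine ⟨C.E 1 one_pos, ⟨E_range C 1 one_pos, ?_⟩, E_not_fg C 1 one_pos, ⟨?_, ?_⟩,
    fun γ hγ n hn h => E_tf C 1 one_pos γ hγ n hn h, 1, w, ⟨⟨?_, ?_, 0, by norm_num, ?_⟩, ?_⟩,
    ⟨⟨?_, ?_, ?_⟩, ?_⟩, ?_⟩
  · apply discrete_of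
    exact (finite_G C 1 one_pos L 1).subset fun γ hγ => ⟨E_le C 1 one_pos hγ.1, hγ.2⟩
  · intro x ε hε
    obtain ⟨u, hu, hd⟩ := Metric.mem_closure_iff.1 (all_lim C 1 one_pos L x) ε hε
    obtain ⟨γ, hγ, rfl⟩ := orb_E C hu
    refine ⟨γ, hγ, ?_⟩
    rw [← Complex.dist_eq, dist_comm]; exact hd
  · intro r
    obtain ⟨u, hu, hr⟩ := orb_unbdd C 1 one_pos r
    obtain ⟨γ, hγ, rfl⟩ := orb_E C hu
    exact ⟨γ, hγ, hr⟩
  · intro z
    have : coord 1 =ᶠ[nhds (z : ℂ)] id := by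
      rw [Filter.EventuallyEq, ev_coe]
      filter_upwards with z'
      show (((1 : Equiv.Perm ℍ) (ofComplex (z' : ℂ)) : ℍ) : ℂ) = z'
      rw [ofComplex_apply]; rfl
    exact contDiffAt_id.congr_of_eventuallyEq this
  · intro z
    have : coord 1⁻¹ =ᶠ[nhds (z : ℂ)] id := by
      rw [Filter.EventuallyEq, ev_coe]
      filter_upwards with z'
      show (((1⁻¹ : Equiv.Perm ℍ) (ofComplex (z' : ℂ)) : ℍ) : ℂ) = z'
      rw [ofComplex_apply]; rfl
    exact contDiffAt_id.congr_of_eventuallyEq this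
  · intro z
    have : coord 1 =ᶠ[nhds (z : ℂ)] id := by
      rw [Filter.EventuallyEq, ev_coe]
      filter_upwards with z'
      show (((1 : Equiv.Perm ℍ) (ofComplex (z' : ℂ)) : ℍ) : ℂ) = z'
      rw [ofComplex_apply]; rfl
    unfold dzbar
    rw [this.fderiv_eq, fderiv_id]
    simp
  · rw [hone]; exact E_range C 1 one_pos
  · intro z
    exact sm_ww C 1 one_pos c hc hP hlam hR (prof_smooth c) z
  · intro z
    exact sm_ww C c hc 1 one_pos hP' hlam' hR' (prof_inv_smooth hc) z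
  · obtain ⟨Q, hQ⟩ := prof_deriv_bdd hc
    set f0 := min 1 c with hf0
    have hf0' : 0 < f0 := lt_min one_pos hc
    have hQ0 : 0 ≤ Q := le_trans (by positivity) (hQ 0)
    refine ⟨Q / Real.sqrt (4 * f0 ^ 2 + Q ^ 2), ?_, ?_⟩
    · rw [div_lt_one (Real.sqrt_pos.2 (by positivity))]
      apply Real.lt_sqrt_of_sq_lt
      nlinarith
    · exact dil_ww C 1 one_pos c hc hP hlam hR (prof_smooth c)
        (dil_S hP (prof_smooth c) hf0' (fun t => prof_ge t) hQ)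
  · show (C.E 1 one_pos).map (MulAut.conj w).toMonoidHom ≤ _
    rw [hmap]; exact E_range C c hc
  · have h1 : conjGroup w (C.E 1 one_pos) = C.E c hc := hmap
    rw [hone, h1]
    intro heq
    rw [heq] at hlow
    have : Real.log 2 / M ≤ Real.log 2 / M / 2 := hlow.trans hupp
    have h2 : 0 < Real.log 2 / M := by positivity
    linarith

end Pool.Agent.Results.MP_c5bc55_gt.CriticalExponent
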